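import Pool.Agent.R968.Anchored

/-!
# The hyperbolic Poisson-Voronoi graph does not have anchored thin triangles

For every intensity `lam > 0` and every homogeneous Poisson process of intensity `lam` on the
hyperbolic plane, almost surely the Voronoi graph is connected and for *every* vertex `x` and every
real number `δ` there is a geodesic triangle with vertex `x` which is not `δ`-thin. Hence there is
no random variable `δ_x`, finite with positive probability, such that all geodesic triangles with
vertex `x` are `δ_x`-thin.

The deterministic reason is that thin triangles at a single vertex force the four point condition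
of Gromov, with every base point, while almost surely somewhere the point process looks like an
arbitrarily fine grid.
-/

set_option autoImplicit false

namespace Pool.Agent.Results.MP_c20824_pr.AnchoredThinTrianglesFail

open MeasureTheory UpperHalfPlane Pool.Agent.Y979.HV Pool.Agent.R968

theorem result {Ω : Type*} [MeasurableSpace Ω] (P : Measure Ω) [IsProbabilityMeasure P]
    (lam : ℝ) (hlam : 0 < lam) (Q : Ω → Set ℍ) (hQ : IsPoissonProcess P lam Q) :
    ∀ᵐ ω ∂P, (voronoiGraph (Q ω)).Connected ∧
      ∀ (x : Q ω) (δ : ℝ), ∃ (y z : Q ω) (p : (voronoiGraph (Q ω)).Walk x y)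
        (q : (voronoiGraph (Q ω)).Walk y z) (r : (voronoiGraph (Q ω)).Walk z x),
        p.length = (voronoiGraph (Q ω)).dist x y ∧ q.length = (voronoiGraph (Q ω)).dist y z ∧
        r.length = (voronoiGraph (Q ω)).dist z x ∧ ¬ Thin (voronoiGraph (Q ω)) δ p q r := by
  filter_upwards [anchored hlam hQ] with ω hω
  refine ⟨hω.1, fun x δ => ?_⟩
  have h := hω.2 x δ
  unfold ThinAt at h
  push Not at h
  exact h

end Pool.Agent.Results.MP_c20824_pr.AnchoredThinTrianglesFail
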